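import Pool.Agent.V5helper40.FH.Phases

/-! # The multi-round bichromatic 5-hole game with bias 1 : 2: Maker wins

The multi-round bichromatic Maker-Breaker `k`-hole game with bias `1 : 2`: in each round Maker places one
new point of the plane, then Breaker places two new points, always in general position; Maker wins if at
some moment her points contain a `k`-hole of the set of all points. `K` is the set of the `k ≥ 3` for which
Breaker has a winning strategy. We show that Maker wins for `k = 5`, with her first 26 moves; as a
Breaker win persists for larger `k`, all elements of `K` are at least `6`.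

The strategy. Maker places 16 points far above a point `r₀` (not one of the points), and completes six
pairs `e = (l, m)` with `m` on the segment from `l` to `r₀` (Breaker can spoil at most two lines in each
round). Now she plays `c₁` extremely close to `r₀`: six thin empty triangles, at least four of which
survive, `e₁, e₂, e₃, e₄` from the left to the right. The next point `c₂` is placed extremely close to
`c₁`, in a direction between `e₂` and `e₃`: four thin quadrangles `e_i, c₁, c₂`. Breaker has to hit all of
them, so he must place one point `b` to the left of the line `c₁ c₂`, in the quadrangles of `e₁`, `e₂`, and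
one point `b'` to the right, in those of `e₃`, `e₄`. Let `x` be the point of the segment `c₁ c₂` which is
seen from `b` in the direction between `e₁` and `e₂`. Maker plays `p` extremely close to `x`. Then the
quadrangles `e₁, c₁, p` and `e₂, c₂, p` and one of `e₃, c₂, p` and `e₄, c₁, p` are empty, and no point of
Breaker lies in two of them. So one of them survives, and it is extended to a `5`-hole by a point near the
middle of its edge at `p`.
-/

set_option autoImplicit false

namespace Pool.Agent.Results.MP_f5afab_co.FiveHoles

open Set
open Pool.Agent.Results.MP_f5afab_co.FourHolesEverySpeed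

/-- a `(k + 1)`-hole contains a `k`-hole -/
lemma hole_mono {k : ℕ} {S H : Finset Pt} (h : IsHole (k + 1) S H) : ∃ H' ⊆ H, IsHole k S H' := by
  classical
  obtain ⟨hHS, hcard, hvert, hemp⟩ := h
  have hne : H.Nonempty := by rw [← Finset.card_pos]; omega
  obtain ⟨x, hx⟩ := hne
  have hsub : ((H.erase x : Finset Pt) : Set Pt) ⊆ (H : Set Pt) := by
    rw [Finset.coe_erase]; exact sdiff_subset
  refine ⟨H.erase x, Finset.erase_subset _ _, (Finset.erase_subset _ _).trans hHS, ?_, ?_, ?_⟩
  · rw [Finset.card_erase_of_mem hx, hcard]; rfl
  · intro y hy hmem
    refine hvert y (Finset.mem_of_mem_erase hy) (convexHull_mono ?_ hmem)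
    exact sdiff_subset_sdiff_left hsub
  · apply Subset.antisymm
    · rintro y ⟨hy1, hy2⟩
      have h1 : y ∈ convexHull ℝ (H : Set Pt) ∩ (S : Set Pt) := ⟨convexHull_mono hsub hy1, hy2⟩
      rw [hemp] at h1
      rw [Finset.mem_coe, Finset.mem_erase]
      refine ⟨?_, h1⟩
      rintro rfl
      refine hvert y hx ?_
      rw [Finset.coe_erase] at hy1
      exact hy1
    · intro y hy
      exact ⟨subset_convexHull ℝ _ hy, hHS (hsub hy)⟩

/-- a win of Breaker persists for larger holes -/
lemma breaker_mono {s k : ℕ} (h : BreakerWins s k) : BreakerWins s (k + 1) := by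
  obtain ⟨σ, hσ⟩ := h
  refine ⟨σ, fun p l hl => ?_⟩
  obtain ⟨h1, h2⟩ := hσ p l hl
  refine ⟨?_, h2⟩
  rintro ⟨H, hH, hH'⟩
  obtain ⟨H', hH1, hH2⟩ := hole_mono hH'
  exact h1 ⟨H', hH1.trans hH, hH2⟩

lemma breaker_mono' {s k : ℕ} (h : BreakerWins s k) (m : ℕ) : BreakerWins s (k + m) := by
  induction m with
  | zero => exact h
  | succ m ih => exact breaker_mono ih

/-- **Theorem.** In the multi-round bichromatic `5`-hole game with bias `1 : 2` Maker can force a `5`-hole
with her first `26` moves, so Breaker has no winning strategy; every element of the set `K` of the problem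
is at least `6`. -/
theorem result :
    MakerWinsIn 2 5 26 ∅ ∅ ∧ ¬ BreakerWins 2 5 ∧ ∀ k ∈ K, 6 ≤ k := by
  have h5 : ¬ BreakerWins 2 5 := not_breakerWins Pool.Agent.V5helper40.FH.maker_wins_five
  refine ⟨Pool.Agent.V5helper40.FH.maker_wins_five, h5, ?_⟩
  rintro k ⟨_, hk⟩
  by_contra hcon
  push Not at hcon
  have := breaker_mono' hk (5 - k)
  rw [show k + (5 - k) = 5 by omega] at this
  exact h5 this

end Pool.Agent.Results.MP_f5afab_co.FiveHoles
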