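import Mathlib

/-! # The multi-round bichromatic 4-hole game: Maker wins at every constant speed

The multi-round bichromatic Maker-Breaker `k`-hole game with bias `1 : s`: in each round Maker places one
new point of the plane, then Breaker places `s` new points, always in general position; Maker wins if at
some moment her points contain a `k`-hole of the set of all points. For `k = 4` Maker wins for EVERY
constant speed `s`, within `s ^ 2 + 2 s + 4` rounds. In particular (`s = 2`) the number `4` is not in
the set `K` of the problem.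

The strategy. Maker first places `s ^ 2 + s + 1` points. Then she chooses a point `r₀` which is on no line
through two of the points placed so far, and completes, one after the other, `s + 1` pairs `l, m`, where
`l` is one of her first points and `m` lies on the segment from `l` to `r₀`. Breaker can spoil at most
`s` of the lines `l r₀` in each round, and he cannot use `r₀` itself, which would be collinear with `l` and
`m`. Now Maker plays extremely close to `r₀`. This creates `s + 1` very thin empty triangles, with disjoint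
interiors. Breaker destroys at most `s` of them, and Maker completes a remaining one to a `4`-hole.
-/

set_option autoImplicit false

namespace Pool.Agent.Results.MP_f5afab_co.FourHolesEverySpeed

open Set Filter Topology

/-- the points of the plane -/
abbrev Pt : Type := ℝ × ℝ

/-- general position: no three different points of `S` are collinear -/
def GenPos (S : Finset Pt) : Prop :=
  ∀ x ∈ S, ∀ y ∈ S, ∀ z ∈ S, x ≠ y → x ≠ z → y ≠ z → ¬ Collinear ℝ ({x, y, z} : Set Pt)

/-- `H` is a `k`-hole of `S`: `H` consists of `k` points of `S`, none of which is in the convex hull of the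
others (so that `conv H` is a convex `k`-gon with the vertices `H`), and `conv H ∩ S = H` -/
def IsHole (k : ℕ) (S H : Finset Pt) : Prop :=
  H ⊆ S ∧ H.card = k ∧ (∀ x ∈ H, x ∉ convexHull ℝ ((H : Set Pt) \ {x})) ∧
    convexHull ℝ (H : Set Pt) ∩ (S : Set Pt) = (H : Set Pt)

/-- in the position with Maker's points `M` and Breaker's points `B` and with Maker to move, Maker can force
a `k`-hole with her next at most `n` moves, if Breaker places `s` points in each round -/
def MakerWinsIn (s k : ℕ) : ℕ → Finset Pt → Finset Pt → Prop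
  | 0, _, _ => False
  | n + 1, M, B => ∃ p : Pt, p ∉ M ∪ B ∧ GenPos (insert p (M ∪ B)) ∧
      ((∃ H ⊆ insert p M, IsHole k (insert p (M ∪ B)) H) ∨
        ∀ A : Finset Pt, A.card = s → Disjoint A (insert p (M ∪ B)) → GenPos (A ∪ insert p (M ∪ B)) →
          MakerWinsIn s k n (insert p M) (A ∪ B))

/-- Breaker's points after the rounds in which Maker has placed the points of the list `h` (the latest
first), if he answers the list `h` of her points by the set `σ h` -/
noncomputable def breakerPts (σ : List Pt → Finset Pt) : List Pt → Finset Pt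
  | [] => ∅
  | p :: h => σ (p :: h) ∪ breakerPts σ h

/-- Maker's points of the list `h` (the latest first) are a legal sequence of moves against `σ` -/
def Legal (σ : List Pt → Finset Pt) : List Pt → Prop
  | [] => True
  | p :: h => Legal σ h ∧ p ∉ h.toFinset ∪ breakerPts σ h ∧ GenPos (insert p (h.toFinset ∪ breakerPts σ h))

/-- Breaker has a winning strategy `σ` in the game with bias `1 : s`: against all legal sequences of moves of
Maker, none of her moves creates a `k`-hole among her points (placing further points of Breaker creates none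
either), and the answers of `σ` are legal -/
def BreakerWins (s k : ℕ) : Prop := ∃ σ : List Pt → Finset Pt, ∀ (p : Pt) (h : List Pt), Legal σ (p :: h) →
  (¬ ∃ H ⊆ insert p h.toFinset, IsHole k (insert p (h.toFinset ∪ breakerPts σ h)) H) ∧
  (σ (p :: h)).card = s ∧ Disjoint (σ (p :: h)) (insert p (h.toFinset ∪ breakerPts σ h)) ∧
  GenPos (σ (p :: h) ∪ insert p (h.toFinset ∪ breakerPts σ h))

/-- the set `K` of the problem -/
def K : Set ℕ := {k | 3 ≤ k ∧ BreakerWins 2 k}

/-! ### strategies -/

lemma not_breakerWins {s k : ℕ} {n : ℕ} (h : MakerWinsIn s k n ∅ ∅) : ¬ BreakerWins s k := by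
  rintro ⟨σ, hσ⟩
  have key : ∀ (n : ℕ) (l : List Pt), Legal σ l → ¬ MakerWinsIn s k n l.toFinset (breakerPts σ l) := by
    intro n
    induction n with
    | zero => intro l _ h; exact h
    | succ n ih =>
      intro l hl h
      obtain ⟨p, hp, hG, h⟩ := h
      have hleg : Legal σ (p :: l) := ⟨hl, hp, hG⟩
      obtain ⟨h1, h2, h3, h4⟩ := hσ p l hleg
      rcases h with h | h
      · exact h1 h
      · have := h _ h2 h3 h4
        refine ih (p :: l) hleg ?_
        rw [List.toFinset_cons]
        exact this
  exact key n [] trivial (by simpa [breakerPts] using h)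

/-! ### determinants -/

/-- twice the signed area -/
def det (x y z : Pt) : ℝ := (y.1 - x.1) * (z.2 - x.2) - (y.2 - x.2) * (z.1 - x.1)

lemma det_cyc (x y z : Pt) : det x y z = det y z x := by unfold det; ring
lemma det_swap (x y z : Pt) : det x y z = - det y x z := by unfold det; ring
lemma det_swap' (x y z : Pt) : det x y z = - det x z y := by unfold det; ring
lemma det_self₁ (x y : Pt) : det x y x = 0 := by unfold det; ring
lemma det_self₂ (x y : Pt) : det x y y = 0 := by unfold det; ring
lemma det_self₃ (x y : Pt) : det x x y = 0 := by unfold det; ring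

lemma det_comb (x y u v : Pt) (a b : ℝ) (h : a + b = 1) :
    det x y (a • u + b • v) = a * det x y u + b * det x y v := by
  have hb : b = 1 - a := by linarith
  subst hb
  unfold det
  simp only [Prod.fst_add, Prod.snd_add, Prod.smul_fst, Prod.smul_snd, smul_eq_mul]
  ring

lemma continuous_det (x y : Pt) : Continuous (fun z => det x y z) := by
  unfold det
  fun_prop

lemma collinear_iff (x y z : Pt) : Collinear ℝ ({x, y, z} : Set Pt) ↔ det x y z = 0 := by
  constructor
  · intro h
    rw [collinear_iff_of_mem (p₀ := x) (by simp)] at h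
    obtain ⟨v, hv⟩ := h
    obtain ⟨r, hr⟩ := hv y (by simp)
    obtain ⟨t, ht⟩ := hv z (by simp)
    rw [hr, ht]
    unfold det
    simp only [vadd_eq_add, Prod.fst_add, Prod.snd_add, Prod.smul_fst, Prod.smul_snd, smul_eq_mul]
    ring
  · intro h
    rw [collinear_iff_of_mem (p₀ := x) (by simp)]
    by_cases hxy : y = x
    · refine ⟨z - x, ?_⟩
      intro p hp
      simp only [mem_insert_iff, mem_singleton_iff] at hp
      rcases hp with rfl | rfl | rfl
      · exact ⟨0, by simp⟩
      · exact ⟨0, by simp [hxy]⟩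
      · exact ⟨1, by simp⟩
    · refine ⟨y - x, ?_⟩
      intro p hp
      simp only [mem_insert_iff, mem_singleton_iff] at hp
      rcases hp with rfl | rfl | rfl
      · exact ⟨0, by simp⟩
      · exact ⟨1, by simp⟩
      · unfold det at h
        by_cases h1 : y.1 - x.1 = 0
        · have h2 : y.2 - x.2 ≠ 0 := by
            intro h2
            apply hxy
            apply Prod.ext <;> linarith
          refine ⟨(p.2 - x.2) / (y.2 - x.2), ?_⟩
          apply Prod.ext
          · simp only [vadd_eq_add, Prod.fst_add, Prod.smul_fst, Prod.fst_sub, smul_eq_mul]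
            rw [h1] at h ⊢
            have h3 : (y.2 - x.2) * (p.1 - x.1) = 0 := by linarith
            rcases mul_eq_zero.1 h3 with h4 | h4
            · exact absurd h4 h2
            · linarith
          · simp only [vadd_eq_add, Prod.snd_add, Prod.smul_snd, Prod.snd_sub, smul_eq_mul]
            field_simp
            ring
        · refine ⟨(p.1 - x.1) / (y.1 - x.1), ?_⟩
          apply Prod.ext
          · simp only [vadd_eq_add, Prod.fst_add, Prod.smul_fst, Prod.fst_sub, smul_eq_mul]
            field_simp
            ring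
          · simp only [vadd_eq_add, Prod.snd_add, Prod.smul_snd, Prod.snd_sub, smul_eq_mul]
            field_simp
            linarith

lemma GenPos.det_ne {S : Finset Pt} (hS : GenPos S) {x y z : Pt} (hx : x ∈ S) (hy : y ∈ S) (hz : z ∈ S)
    (h1 : x ≠ y) (h2 : x ≠ z) (h3 : y ≠ z) : det x y z ≠ 0 := by
  intro h
  exact hS x hx y hy z hz h1 h2 h3 ((collinear_iff x y z).2 h)

lemma GenPos.mono {S T : Finset Pt} (hS : GenPos S) (h : T ⊆ S) : GenPos T :=
  fun x hx y hy z hz => hS x (h hx) y (h hy) z (h hz)

lemma genPos_insert {S : Finset Pt} {p : Pt} (hS : GenPos S) (h : ∀ x ∈ S, ∀ y ∈ S, x ≠ y → det x y p ≠ 0) :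
    GenPos (insert p S) := by
  intro x hx y hy z hz h1 h2 h3
  rw [collinear_iff]
  rw [Finset.mem_insert] at hx hy hz
  rcases hx with rfl | hx
  · rcases hy with rfl | hy
    · exact absurd rfl h1
    · rcases hz with rfl | hz
      · exact absurd rfl h2
      · rw [det_cyc]; exact h y hy z hz h3
  · rcases hy with rfl | hy
    · rcases hz with rfl | hz
      · exact absurd rfl h3
      · rw [← det_cyc]; exact h z hz x hx (Ne.symm h2)
    · rcases hz with rfl | hz
      · exact h x hx y hy h1
      · exact hS.det_ne hx hy hz h1 h2 h3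

/-! ### generic points -/

lemma exists_generic_aux (T : Finset (Pt × Pt)) (hT : ∀ e ∈ T, e.1 ≠ e.2) :
    ∀ U : Set Pt, IsOpen U → U.Nonempty →
      ∃ V ⊆ U, IsOpen V ∧ V.Nonempty ∧ ∀ e ∈ T, ∀ q ∈ V, det e.1 e.2 q ≠ 0 := by
  classical
  induction T using Finset.induction_on with
  | empty => intro U h1 h2; exact ⟨U, Subset.rfl, h1, h2, by simp⟩
  | insert e T _ ih =>
    intro U h1 h2
    obtain ⟨V, hVU, hVo, ⟨u, hu⟩, hV⟩ := ih (fun e he => hT e (Finset.mem_insert_of_mem he)) U h1 h2
    have hopen : IsOpen {q : Pt | det e.1 e.2 q ≠ 0} :=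
      isOpen_ne_fun (continuous_det e.1 e.2) continuous_const
    refine ⟨V ∩ {q | det e.1 e.2 q ≠ 0}, fun q hq => hVU hq.1, hVo.inter hopen, ?_, ?_⟩
    · by_cases hdu : det e.1 e.2 u = 0
      · -- move a little
        set v : Pt := (-(e.2.2 - e.1.2), e.2.1 - e.1.1) with hv
        have hcont : Continuous (fun t : ℝ => u + t • v) := by fun_prop
        have h3 : ∀ᶠ t in 𝓝 (0:ℝ), u + t • v ∈ V := by
          apply hcont.continuousAt.eventually
          simpa using hVo.mem_nhds hu
        have h4 : ∀ᶠ t in 𝓝[>] (0:ℝ), u + t • v ∈ V := h3.filter_mono nhdsWithin_le_nhds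
        obtain ⟨t, ht1, ht2⟩ := (h4.and self_mem_nhdsWithin).exists
        refine ⟨u + t • v, ht1, ?_⟩
        simp only [mem_ofPred_eq]
        have h5 : det e.1 e.2 (u + t • v) = det e.1 e.2 u +
            t * ((e.2.1 - e.1.1) ^ 2 + (e.2.2 - e.1.2) ^ 2) := by
          rw [hv]; unfold det
          simp only [Prod.fst_add, Prod.snd_add, Prod.smul_mk, smul_eq_mul]
          ring
        rw [h5, hdu, zero_add]
        have hne : e.1 ≠ e.2 := hT e (Finset.mem_insert_self _ _)
        have h6 : 0 < (e.2.1 - e.1.1) ^ 2 + (e.2.2 - e.1.2) ^ 2 := by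
          rcases eq_or_ne (e.2.1 - e.1.1) 0 with h7 | h7
          · have h8 : e.2.2 - e.1.2 ≠ 0 := by
              intro h8; apply hne; apply Prod.ext <;> linarith
            have := sq_nonneg (e.2.1 - e.1.1)
            have : 0 < (e.2.2 - e.1.2) ^ 2 := by positivity
            linarith
          · have := sq_nonneg (e.2.2 - e.1.2)
            have : 0 < (e.2.1 - e.1.1) ^ 2 := by positivity
            linarith
        exact (mul_pos ht2 h6).ne'
      · exact ⟨u, hu, hdu⟩
    · intro e' he' q hq
      rw [Finset.mem_insert] at he'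
      rcases he' with rfl | he'
      · exact hq.2
      · exact hV e' he' q hq.1

lemma exists_generic (S : Finset Pt) (U : Set Pt) (hU : IsOpen U) (hne : U.Nonempty) :
    ∃ q ∈ U, q ∉ S ∧ ∀ x ∈ S, ∀ y ∈ S, x ≠ y → det x y q ≠ 0 := by
  classical
  have hdense : Dense ((S : Set Pt)ᶜ) := (S.finite_toSet.countable).dense_compl ℝ
  have hne' : (U ∩ (S : Set Pt)ᶜ).Nonempty := hdense.inter_open_nonempty U hU hne
  have hopen : IsOpen (U ∩ (S : Set Pt)ᶜ) := hU.inter S.finite_toSet.isClosed.isOpen_compl
  obtain ⟨V, hVU, _, ⟨q, hq⟩, hV⟩ := exists_generic_aux ((S ×ˢ S).filter fun e => e.1 ≠ e.2)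
    (fun e he => (Finset.mem_filter.1 he).2) _ hopen hne'
  refine ⟨q, (hVU hq).1, fun h => (hVU hq).2 h, ?_⟩
  intro x hx y hy hxy
  exact hV (x, y) (Finset.mem_filter.2 ⟨Finset.mem_product.2 ⟨hx, hy⟩, hxy⟩) q hq

/-! ### convex hulls -/

lemma convex_det_ge (x y : Pt) (t : ℝ) : Convex ℝ {z : Pt | t ≤ det x y z} := by
  intro u hu v hv a b ha hb hab
  simp only [mem_ofPred_eq] at *
  rw [det_comb x y u v a b hab]
  have h1 := mul_le_mul_of_nonneg_left hu ha
  have h2 := mul_le_mul_of_nonneg_left hv hb
  have h3 : a * t + b * t = t := by rw [← add_mul, hab, one_mul]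
  linarith

lemma convex_det_le (x y : Pt) (t : ℝ) : Convex ℝ {z : Pt | det x y z ≤ t} := by
  intro u hu v hv a b ha hb hab
  simp only [mem_ofPred_eq] at *
  rw [det_comb x y u v a b hab]
  have h1 := mul_le_mul_of_nonneg_left hu ha
  have h2 := mul_le_mul_of_nonneg_left hv hb
  have h3 : a * t + b * t = t := by rw [← add_mul, hab, one_mul]
  linarith

lemma hull_ge {T : Set Pt} {x y : Pt} {t : ℝ} (h : ∀ z ∈ T, t ≤ det x y z) {z : Pt} (hz : z ∈ convexHull ℝ T) :
    t ≤ det x y z := convexHull_min (fun z hz => h z hz) (convex_det_ge x y t) hz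

lemma hull_le {T : Set Pt} {x y : Pt} {t : ℝ} (h : ∀ z ∈ T, det x y z ≤ t) {z : Pt} (hz : z ∈ convexHull ℝ T) :
    det x y z ≤ t := convexHull_min (fun z hz => h z hz) (convex_det_le x y t) hz

lemma three_mem {C : Set Pt} (hC : Convex ℝ C) {a b c : Pt} (ha : a ∈ C) (hb : b ∈ C) (hc : c ∈ C)
    {α β γ : ℝ} (h1 : 0 ≤ α) (h2 : 0 ≤ β) (h3 : 0 ≤ γ) (h : α + β + γ = 1) : α • a + β • b + γ • c ∈ C := by
  rcases eq_or_lt_of_le (add_nonneg h2 h3) with h0 | h0
  · have hβ : β = 0 := by linarith
    have hγ : γ = 0 := by linarith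
    have hα : α = 1 := by linarith
    subst hβ; subst hγ; subst hα
    simpa using ha
  · have h4 : (β / (β + γ)) • b + (γ / (β + γ)) • c ∈ C :=
      hC hb hc (by positivity) (by positivity) (by field_simp)
    have h5 := hC ha h4 h1 h0.le (by linarith)
    have h6 : α • a + β • b + γ • c = α • a + (β + γ) • ((β / (β + γ)) • b + (γ / (β + γ)) • c) := by
      rw [smul_add, smul_smul, smul_smul, mul_div_cancel₀ _ h0.ne', mul_div_cancel₀ _ h0.ne', add_assoc]
    rw [h6]; exact h5

lemma mem_tri {a b c z : Pt} (hz : z ∈ convexHull ℝ ({a, b, c} : Set Pt)) :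
    ∃ α β γ : ℝ, 0 ≤ α ∧ 0 ≤ β ∧ 0 ≤ γ ∧ α + β + γ = 1 ∧ z = α • a + β • b + γ • c := by
  have hconv : Convex ℝ {z : Pt | ∃ α β γ : ℝ, 0 ≤ α ∧ 0 ≤ β ∧ 0 ≤ γ ∧ α + β + γ = 1 ∧ z = α • a + β • b + γ • c} := by
    rintro u ⟨α, β, γ, h1, h2, h3, h4, rfl⟩ v ⟨α', β', γ', h1', h2', h3', h4', rfl⟩ s t hs ht hst
    refine ⟨s * α + t * α', s * β + t * β', s * γ + t * γ', by positivity, by positivity, by positivity, ?_, ?_⟩
    · have : s * α + t * α' + (s * β + t * β') + (s * γ + t * γ') = s * (α + β + γ) + t * (α' + β' + γ') := by ring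
      rw [this, h4, h4', mul_one, mul_one, hst]
    · module
  refine convexHull_min ?_ hconv hz
  intro p hp
  simp only [mem_insert_iff, mem_singleton_iff] at hp
  rcases hp with rfl | rfl | rfl
  · exact ⟨1, 0, 0, by norm_num, by norm_num, by norm_num, by norm_num, by simp⟩
  · exact ⟨0, 1, 0, by norm_num, by norm_num, by norm_num, by norm_num, by simp⟩
  · exact ⟨0, 0, 1, by norm_num, by norm_num, by norm_num, by norm_num, by simp⟩

/-- a point on the right side of the three edges is in the triangle -/
lemma mem_hull_of_det {a b c x : Pt} (hD : 0 < det a b c) (h1 : 0 ≤ det a b x) (h2 : 0 ≤ det b c x)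
    (h3 : 0 ≤ det c a x) : x ∈ convexHull ℝ ({a, b, c} : Set Pt) := by
  have hsum : det b c x / det a b c + det c a x / det a b c + det a b x / det a b c = 1 := by
    rw [← add_div, ← add_div, div_eq_one_iff_eq hD.ne']
    unfold det; ring
  have := three_mem (convex_convexHull ℝ ({a, b, c} : Set Pt)) (a := a) (b := b) (c := c)
    (subset_convexHull ℝ _ (by simp)) (subset_convexHull ℝ _ (by simp)) (subset_convexHull ℝ _ (by simp))
    (div_nonneg h2 hD.le) (div_nonneg h3 hD.le) (div_nonneg h1 hD.le) hsum
  convert this using 1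
  apply Prod.ext
  · simp only [Prod.fst_add, Prod.smul_fst, smul_eq_mul]
    field_simp
    unfold det; ring
  · simp only [Prod.snd_add, Prod.smul_snd, smul_eq_mul]
    field_simp
    unfold det; ring

/-! ### the last move -/

lemma last_move {S M : Finset Pt} (hMS : M ⊆ S) (hS : GenPos S) {a b c : Pt} (ha : a ∈ M) (hb : b ∈ M) (hc : c ∈ M)
    (hD : 0 < det a b c)
    (hempty : ∀ x ∈ S, x ∈ convexHull ℝ ({a, b, c} : Set Pt) → x = a ∨ x = b ∨ x = c) :
    ∃ q, q ∉ S ∧ GenPos (insert q S) ∧ ∃ H ⊆ insert q M, IsHole 4 (insert q S) H := by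
  classical
  -- the middle of the edge `b c`
  set m : Pt := (1 / 2 : ℝ) • b + (1 / 2 : ℝ) • c with hm
  have hm1 : det a b m = det a b c / 2 := by
    rw [hm, det_comb _ _ _ _ _ _ (by norm_num), det_self₂]; ring
  have hm2 : det c a m = det a b c / 2 := by
    rw [hm, det_comb _ _ _ _ _ _ (by norm_num), det_self₁, det_cyc c a b]; ring
  have hm3 : det b c m = 0 := by
    rw [hm, det_comb _ _ _ _ _ _ (by norm_num), det_self₁, det_self₂]; ring
  set U : Set Pt := {q | 0 < det a b q} ∩ {q | 0 < det c a q} ∩ {q | det b c q < 0} ∩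
    ⋂ x ∈ S.filter (fun x => det b c x < 0), {q | det b c x < det b c q} with hU
  have hUo : IsOpen U := by
    refine ((IsOpen.inter ?_ ?_).inter ?_).inter ?_
    · exact isOpen_lt continuous_const (continuous_det a b)
    · exact isOpen_lt continuous_const (continuous_det c a)
    · exact isOpen_lt (continuous_det b c) continuous_const
    · exact isOpen_biInter_finset fun x _ => isOpen_lt continuous_const (continuous_det b c)
  have hUne : U.Nonempty := by
    set v : Pt := m - a with hv
    have hcont : Continuous (fun t : ℝ => m + t • v) := by fun_prop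
    have hlin : ∀ x y : Pt, ∀ t : ℝ, det x y (m + t • v) = det x y m + t * (det x y m - det x y a) := by
      intro x y t
      rw [hv]; unfold det
      simp only [Prod.fst_add, Prod.snd_add, Prod.smul_fst, Prod.smul_snd, Prod.fst_sub, Prod.snd_sub, smul_eq_mul]
      ring
    have e1 : ∀ᶠ t in 𝓝 (0:ℝ), 0 < det a b (m + t • v) := by
      apply ((continuous_det a b).comp hcont).continuousAt.eventually
      simp only [Function.comp, zero_smul, add_zero]
      rw [hm1]; exact lt_mem_nhds (by linarith)
    have e2 : ∀ᶠ t in 𝓝 (0:ℝ), 0 < det c a (m + t • v) := by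
      apply ((continuous_det c a).comp hcont).continuousAt.eventually
      simp only [Function.comp, zero_smul, add_zero]
      rw [hm2]; exact lt_mem_nhds (by linarith)
    have e3 : ∀ᶠ t in 𝓝 (0:ℝ), ∀ x ∈ S.filter (fun x => det b c x < 0), det b c x < det b c (m + t • v) := by
      rw [Filter.eventually_all_finset]
      intro x hx
      apply ((continuous_det b c).comp hcont).continuousAt.eventually
      simp only [Function.comp, zero_smul, add_zero]
      rw [hm3]; exact lt_mem_nhds (Finset.mem_filter.1 hx).2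
    have e4 := ((e1.and (e2.and e3)).filter_mono (nhdsWithin_le_nhds (s := Ioi (0:ℝ)))).and self_mem_nhdsWithin
    obtain ⟨t, ⟨h1, h2, h3⟩, h4⟩ := e4.exists
    refine ⟨m + t • v, ⟨⟨⟨h1, h2⟩, ?_⟩, ?_⟩⟩
    · simp only [mem_ofPred_eq]
      rw [hlin, hm3]
      have : det b c a = det a b c := (det_cyc a b c).symm
      rw [this]
      have h5 : 0 < t := h4
      nlinarith
    · rw [mem_iInter₂]; exact h3
  obtain ⟨q, hqU, hqS, hq⟩ := exists_generic S U hUo hUne
  obtain ⟨⟨⟨q1, q2⟩, q3⟩, q4⟩ := hqU
  simp only [mem_ofPred_eq] at q1 q2 q3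
  rw [mem_iInter₂] at q4
  have hab : a ≠ b := by rintro rfl; rw [det_self₃] at hD; exact lt_irrefl _ hD
  have hac : a ≠ c := by rintro rfl; rw [det_self₁] at hD; exact lt_irrefl _ hD
  have hbc : b ≠ c := by rintro rfl; rw [det_self₂] at hD; exact lt_irrefl _ hD
  have hqa : q ≠ a := by rintro rfl; exact hqS (hMS ha)
  have hqb : q ≠ b := by rintro rfl; exact hqS (hMS hb)
  have hqc : q ≠ c := by rintro rfl; exact hqS (hMS hc)
  refine ⟨q, hqS, genPos_insert hS hq, {q, a, b, c}, ?_, ?_, ?_, ?_, ?_⟩
  · intro x hx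
    simp only [Finset.mem_insert, Finset.mem_singleton] at hx
    rcases hx with rfl | rfl | rfl | rfl
    · exact Finset.mem_insert_self _ _
    · exact Finset.mem_insert_of_mem ha
    · exact Finset.mem_insert_of_mem hb
    · exact Finset.mem_insert_of_mem hc
  · intro x hx
    simp only [Finset.mem_insert, Finset.mem_singleton] at hx
    rcases hx with rfl | rfl | rfl | rfl
    · exact Finset.mem_insert_self _ _
    · exact Finset.mem_insert_of_mem (hMS ha)
    · exact Finset.mem_insert_of_mem (hMS hb)
    · exact Finset.mem_insert_of_mem (hMS hc)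
  · rw [Finset.card_insert_of_notMem, Finset.card_insert_of_notMem, Finset.card_insert_of_notMem,
      Finset.card_singleton]
    · simp [hbc]
    · simp [hab, hac]
    · simp [hqa, hqb, hqc]
  · -- convex position
    have hcoe : ((({q, a, b, c} : Finset Pt)) : Set Pt) = {q, a, b, c} := by simp
    rw [hcoe]
    intro x hx hmem
    simp only [Finset.mem_insert, Finset.mem_singleton] at hx
    have hdet1 : det a q b = - det a b q := det_swap' a q b
    have hdet2 : det a q c = det c a q := by rw [det_cyc, det_cyc, ← det_cyc]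
    rcases hx with rfl | rfl | rfl | rfl
    · have h1 : (0:ℝ) ≤ det b c x := by
        refine hull_ge (T := _) ?_ hmem
        rintro z ⟨hz, hzq⟩
        simp only [mem_insert_iff, mem_singleton_iff] at hz hzq
        rcases hz with rfl | rfl | rfl | rfl
        · exact absurd rfl hzq
        · rw [← det_cyc]; exact hD.le
        · rw [det_self₁]
        · rw [det_self₂]
      linarith
    · have h1 : det b c x ≤ 0 := by
        refine hull_le (T := _) ?_ hmem
        rintro z ⟨hz, hzq⟩
        simp only [mem_insert_iff, mem_singleton_iff] at hz hzq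
        rcases hz with rfl | rfl | rfl | rfl
        · exact q3.le
        · exact absurd rfl hzq
        · rw [det_self₁]
        · rw [det_self₂]
      rw [← det_cyc] at h1; linarith
    · have h1 : (0:ℝ) ≤ det a q x := by
        refine hull_ge (T := _) ?_ hmem
        rintro z ⟨hz, hzq⟩
        simp only [mem_insert_iff, mem_singleton_iff] at hz hzq
        rcases hz with rfl | rfl | rfl | rfl
        · rw [det_self₂]
        · rw [det_self₁]
        · exact absurd rfl hzq
        · rw [hdet2]; exact q2.le
      rw [hdet1] at h1; linarith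
    · have h1 : det a q x ≤ 0 := by
        refine hull_le (T := _) ?_ hmem
        rintro z ⟨hz, hzq⟩
        simp only [mem_insert_iff, mem_singleton_iff] at hz hzq
        rcases hz with rfl | rfl | rfl | rfl
        · rw [det_self₂]
        · rw [det_self₁]
        · rw [hdet1]; linarith
        · exact absurd rfl hzq
      rw [hdet2] at h1; linarith
  · -- emptiness
    have hcoe : ((({q, a, b, c} : Finset Pt)) : Set Pt) = {q, a, b, c} := by simp
    rw [hcoe]
    apply Subset.antisymm
    · rintro x ⟨hx1, hx2⟩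
      rw [Finset.coe_insert, mem_insert_iff] at hx2
      rcases hx2 with rfl | hx2
      · simp
      · rw [Finset.mem_coe] at hx2
        by_contra hcon
        simp only [mem_insert_iff, mem_singleton_iff, not_or] at hcon
        obtain ⟨_, hxa, hxb, hxc⟩ := hcon
        have hnot : x ∉ convexHull ℝ ({a, b, c} : Set Pt) := by
          intro h
          rcases hempty x hx2 h with h | h | h
          · exact hxa h
          · exact hxb h
          · exact hxc h
        have h1 : (0:ℝ) ≤ det a b x := by
          refine hull_ge (T := _) ?_ hx1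
          intro z hz
          simp only [mem_insert_iff, mem_singleton_iff] at hz
          rcases hz with rfl | rfl | rfl | rfl
          · exact q1.le
          · rw [det_self₁]
          · rw [det_self₂]
          · exact hD.le
        have h2 : (0:ℝ) ≤ det c a x := by
          refine hull_ge (T := _) ?_ hx1
          intro z hz
          simp only [mem_insert_iff, mem_singleton_iff] at hz
          rcases hz with rfl | rfl | rfl | rfl
          · exact q2.le
          · rw [det_self₂]
          · rw [det_cyc]; exact hD.le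
          · rw [det_self₁]
        have h3 : det b c q ≤ det b c x := by
          refine hull_ge (T := _) ?_ hx1
          intro z hz
          simp only [mem_insert_iff, mem_singleton_iff] at hz
          rcases hz with rfl | rfl | rfl | rfl
          · exact le_rfl
          · have h5 := det_cyc z b c
            linarith
          · rw [det_self₁]; exact q3.le
          · rw [det_self₂]; exact q3.le
        have h4 : det b c x < 0 := by
          by_contra h5
          push Not at h5
          exact hnot (mem_hull_of_det hD h1 h5 h2)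
        have h6 := q4 x (Finset.mem_filter.2 ⟨hx2, h4⟩)
        simp only [mem_ofPred_eq] at h6
        linarith
    · intro x hx
      refine ⟨subset_convexHull ℝ _ hx, ?_⟩
      simp only [mem_insert_iff, mem_singleton_iff] at hx
      rw [Finset.mem_coe]
      rcases hx with rfl | rfl | rfl | rfl
      · exact Finset.mem_insert_self _ _
      · exact Finset.mem_insert_of_mem (hMS ha)
      · exact Finset.mem_insert_of_mem (hMS hb)
      · exact Finset.mem_insert_of_mem (hMS hc)

lemma wins_of_triangle {s : ℕ} {M B : Finset Pt} (hS : GenPos (M ∪ B)) {a b c : Pt} (ha : a ∈ M) (hb : b ∈ M)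
    (hc : c ∈ M) (hab : a ≠ b) (hac : a ≠ c) (hbc : b ≠ c)
    (hempty : ∀ x ∈ M ∪ B, x ∈ convexHull ℝ ({a, b, c} : Set Pt) → x = a ∨ x = b ∨ x = c) :
    MakerWinsIn s 4 1 M B := by
  have hne := hS.det_ne (Finset.mem_union_left B ha) (Finset.mem_union_left B hb) (Finset.mem_union_left B hc)
    hab hac hbc
  rcases lt_or_gt_of_ne hne with h | h
  · have h' : 0 < det b a c := by rw [det_swap]; linarith
    obtain ⟨q, h1, h2, h3⟩ := last_move Finset.subset_union_left hS hb ha hc h' (by
      intro x hx hx2
      have : ({b, a, c} : Set Pt) = {a, b, c} := by ext z; simp; tauto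
      rw [this] at hx2
      rcases hempty x hx hx2 with h | h | h
      · exact Or.inr (Or.inl h)
      · exact Or.inl h
      · exact Or.inr (Or.inr h))
    exact ⟨q, h1, h2, Or.inl h3⟩
  · obtain ⟨q, h1, h2, h3⟩ := last_move Finset.subset_union_left hS ha hb hc h hempty
    exact ⟨q, h1, h2, Or.inl h3⟩

/-! ### the burst of thin triangles -/

/-- `e = (l, m)` is a pair of Maker's points on a ray from `r₀`, `m` nearer to `r₀`, alone on their line -/
def Pair (r₀ : Pt) (M S : Finset Pt) (e : Pt × Pt) : Prop :=
  e.1 ∈ M ∧ e.2 ∈ M ∧ e.1 ≠ e.2 ∧ (∃ t : ℝ, 0 < t ∧ t < 1 ∧ e.2 = r₀ + t • (e.1 - r₀)) ∧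
    ∀ x ∈ S, det r₀ e.1 x = 0 → x = e.1 ∨ x = e.2

lemma det_line {r₀ l x y : Pt} {t : ℝ} (ht : x = r₀ + t • (l - r₀)) : det r₀ x y = t * det r₀ l y := by
  rw [ht]; unfold det
  simp only [Prod.fst_add, Prod.snd_add, Prod.smul_fst, Prod.smul_snd, Prod.fst_sub, Prod.snd_sub, smul_eq_mul]
  ring

lemma det_pair {r₀ l m x : Pt} {t : ℝ} (hm : m = r₀ + t • (l - r₀)) : det l m x = (t - 1) * det r₀ l x := by
  rw [hm]; unfold det
  simp only [Prod.fst_add, Prod.snd_add, Prod.smul_fst, Prod.smul_snd, Prod.fst_sub, Prod.snd_sub, smul_eq_mul]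
  ring

lemma burst {r₀ : Pt} {M S : Finset Pt} (hMS : M ⊆ S) (A : Finset (Pt × Pt)) (hA : ∀ e ∈ A, Pair r₀ M S e)
    (hdist : ∀ e ∈ A, ∀ e' ∈ A, e ≠ e' → det r₀ e.1 e'.1 ≠ 0) :
    ∀ᶠ r in 𝓝 r₀, (∀ e ∈ A, ∀ x ∈ S, x ∈ convexHull ℝ ({e.1, e.2, r} : Set Pt) → x = e.1 ∨ x = e.2) ∧
      (∀ e ∈ A, ∀ e' ∈ A, e ≠ e' → ∀ z, z ∈ convexHull ℝ ({e.1, e.2, r} : Set Pt) →
        z ∈ convexHull ℝ ({e'.1, e'.2, r} : Set Pt) → z = r) := by
  refine Filter.Eventually.and ?_ ?_
  · rw [Filter.eventually_all_finset]
    intro e he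
    rw [Filter.eventually_all_finset]
    intro x hx
    obtain ⟨h1, h2, h3, ⟨t, ht0, ht1, ht⟩, h4⟩ := hA e he
    by_cases hxe : x = e.1 ∨ x = e.2
    · exact Filter.Eventually.of_forall fun r _ => hxe
    · have hne : det e.1 e.2 x ≠ 0 := by
        rw [det_pair ht]
        intro h
        rcases mul_eq_zero.1 h with h | h
        · linarith
        · exact hxe (h4 x hx h)
      have h0 : det e.1 e.2 r₀ = 0 := by rw [det_pair ht, det_self₁, mul_zero]
      have hev : ∀ᶠ r in 𝓝 r₀, |det e.1 e.2 r| < |det e.1 e.2 x| := by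
        have hc : Continuous (fun r => |det e.1 e.2 r|) := (continuous_det e.1 e.2).abs
        exact (hc.tendsto r₀).eventually_lt_const (by rw [h0, abs_zero]; exact abs_pos.2 hne)
      filter_upwards [hev] with r hr hmem
      exfalso
      have h5 : det e.1 e.2 x ≤ |det e.1 e.2 r| := by
        refine hull_le (T := _) ?_ hmem
        intro z hz
        simp only [mem_insert_iff, mem_singleton_iff] at hz
        rcases hz with rfl | rfl | rfl
        · rw [det_self₁]; exact abs_nonneg _
        · rw [det_self₂]; exact abs_nonneg _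
        · exact le_abs_self _
      have h6 : -|det e.1 e.2 r| ≤ det e.1 e.2 x := by
        refine hull_ge (T := _) ?_ hmem
        intro z hz
        simp only [mem_insert_iff, mem_singleton_iff] at hz
        rcases hz with rfl | rfl | rfl
        · rw [det_self₁]; linarith [abs_nonneg (det e.1 e.2 r)]
        · rw [det_self₂]; linarith [abs_nonneg (det e.1 e.2 r)]
        · exact neg_abs_le _
      exact absurd (abs_le.2 ⟨h6, h5⟩) (not_le.2 hr)
  · rw [Filter.eventually_all_finset]
    intro e he
    rw [Filter.eventually_all_finset]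
    intro e' he'
    by_cases hee : e = e'
    · exact Filter.Eventually.of_forall fun r h => absurd hee h
    obtain ⟨_, _, _, ⟨t, ht0, ht1, ht⟩, _⟩ := hA e he
    obtain ⟨_, _, _, ⟨t', ht0', ht1', ht'⟩, _⟩ := hA e' he'
    have hD := hdist e he e' he' hee
    set D : ℝ := det r₀ e.1 e'.1 with hDdef
    set w : Pt := (e.1 - r₀) + (e'.1 - r₀) with hw
    set g : Pt → Pt → ℝ := fun r z => D * (w.1 * (z.2 - r.2) - w.2 * (z.1 - r.1)) with hg
    have hgc : ∀ z, Continuous (fun r => g r z) := by
      intro z; simp only [hg]; fun_prop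
    have hD2 : 0 < D ^ 2 := by positivity
    have g1 : g r₀ e.1 = - D ^ 2 := by
      simp only [hg, hw, hDdef]; unfold det
      simp only [Prod.fst_add, Prod.snd_add, Prod.fst_sub, Prod.snd_sub]
      ring
    have g2 : g r₀ e.2 = - (t * D ^ 2) := by
      simp only [hg, hw, hDdef]; rw [ht]; unfold det
      simp only [Prod.fst_add, Prod.snd_add, Prod.smul_fst, Prod.smul_snd, Prod.fst_sub, Prod.snd_sub, smul_eq_mul]
      ring
    have g3 : g r₀ e'.1 = D ^ 2 := by
      simp only [hg, hw, hDdef]; unfold det
      simp only [Prod.fst_add, Prod.snd_add, Prod.fst_sub, Prod.snd_sub]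
      ring
    have g4 : g r₀ e'.2 = t' * D ^ 2 := by
      simp only [hg, hw, hDdef]; rw [ht']; unfold det
      simp only [Prod.fst_add, Prod.snd_add, Prod.smul_fst, Prod.smul_snd, Prod.fst_sub, Prod.snd_sub, smul_eq_mul]
      ring
    have v1 : ∀ᶠ r in 𝓝 r₀, g r e.1 < 0 := by
      exact ((hgc e.1).tendsto r₀).eventually_lt_const (by rw [g1]; linarith)
    have v2 : ∀ᶠ r in 𝓝 r₀, g r e.2 < 0 := by
      exact ((hgc e.2).tendsto r₀).eventually_lt_const (by rw [g2]; have := mul_pos ht0 hD2; linarith)
    have v3 : ∀ᶠ r in 𝓝 r₀, 0 < g r e'.1 := by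
      exact ((hgc e'.1).tendsto r₀).eventually_const_lt (by rw [g3]; exact hD2)
    have v4 : ∀ᶠ r in 𝓝 r₀, 0 < g r e'.2 := by
      exact ((hgc e'.2).tendsto r₀).eventually_const_lt (by rw [g4]; exact mul_pos ht0' hD2)
    filter_upwards [v1, v2, v3, v4] with r w1 w2 w3 w4 _ z hz hz'
    have hcomb : ∀ (x y : Pt) (α β γ : ℝ), α + β + γ = 1 → g r (α • x + β • y + γ • r) = α * g r x + β * g r y := by
      intro x y α β γ h
      have hγ : γ = 1 - α - β := by linarith
      subst hγ
      simp only [hg, Prod.fst_add, Prod.snd_add, Prod.smul_fst, Prod.smul_snd, smul_eq_mul]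
      ring
    obtain ⟨α, β, γ, a1, a2, a3, a4, rfl⟩ := mem_tri hz
    obtain ⟨α', β', γ', b1, b2, b3, b4, hz'⟩ := mem_tri hz'
    have e1 := hcomb e.1 e.2 α β γ a4
    have e2 := hcomb e'.1 e'.2 α' β' γ' b4
    rw [← hz', e1] at e2
    have c1 : α * g r e.1 ≤ 0 := mul_nonpos_of_nonneg_of_nonpos a1 w1.le
    have c2 : β * g r e.2 ≤ 0 := mul_nonpos_of_nonneg_of_nonpos a2 w2.le
    have c3 : 0 ≤ α' * g r e'.1 := mul_nonneg b1 w3.le
    have c4 : 0 ≤ β' * g r e'.2 := mul_nonneg b2 w4.le
    have d1 : α * g r e.1 = 0 := by linarith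
    have d2 : β * g r e.2 = 0 := by linarith
    have hα : α = 0 := by
      rcases mul_eq_zero.1 d1 with h | h
      · exact h
      · exact absurd h w1.ne
    have hβ : β = 0 := by
      rcases mul_eq_zero.1 d2 with h | h
      · exact h
      · exact absurd h w2.ne
    subst hα; subst hβ
    have hγ : γ = 1 := by linarith
    subst hγ
    simp

lemma phase3 {s : ℕ} {r₀ : Pt} {M B : Finset Pt} (hS : GenPos (M ∪ B)) (A : Finset (Pt × Pt))
    (hcard : A.card = s + 1) (hA : ∀ e ∈ A, Pair r₀ M (M ∪ B) e)
    (hdist : ∀ e ∈ A, ∀ e' ∈ A, e ≠ e' → det r₀ e.1 e'.1 ≠ 0) : MakerWinsIn s 4 2 M B := by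
  classical
  have hev := burst (Finset.subset_union_left) A hA hdist
  obtain ⟨U, hUs, hUo, hU0⟩ := mem_nhds_iff.1 hev
  obtain ⟨r, hrU, hrS, hr⟩ := exists_generic (M ∪ B) U hUo ⟨r₀, hU0⟩
  obtain ⟨h1, h2⟩ := hUs hrU
  refine ⟨r, hrS, genPos_insert hS hr, Or.inr ?_⟩
  intro T hT hdisj hG
  -- one of the triangles is empty
  have hex : ∃ e ∈ A, ∀ b ∈ T, b ∉ convexHull ℝ ({e.1, e.2, r} : Set Pt) := by
    by_contra hcon
    push Not at hcon
    have hch : ∀ e : Pt × Pt, ∃ b : Pt, e ∈ A → b ∈ T ∧ b ∈ convexHull ℝ ({e.1, e.2, r} : Set Pt) := by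
      intro e
      by_cases he : e ∈ A
      · obtain ⟨b, hb, hb'⟩ := hcon e he
        exact ⟨b, fun _ => ⟨hb, hb'⟩⟩
      · exact ⟨r, fun h => absurd h he⟩
    choose f hf using hch
    have hle : A.card ≤ T.card := by
      apply Finset.card_le_card_of_injOn f
      · intro e he; exact (hf e he).1
      · intro e he e' he' hfe
        by_contra hne
        have h3 := h2 e he e' he' hne (f e) (hf e he).2 (by rw [hfe]; exact (hf e' he').2)
        have h4 := (hf e he).1
        rw [h3] at h4
        exact (Finset.disjoint_left.1 hdisj h4) (Finset.mem_insert_self _ _)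
    omega
  obtain ⟨e, he, hb⟩ := hex
  obtain ⟨p1, p2, p3, _, _⟩ := hA e he
  have hsub : insert r M ∪ (T ∪ B) = T ∪ insert r (M ∪ B) := by
    ext x; simp only [Finset.mem_union, Finset.mem_insert]; tauto
  have hre1 : e.1 ≠ r := by rintro h; exact hrS (h ▸ Finset.mem_union_left B p1)
  have hre2 : e.2 ≠ r := by rintro h; exact hrS (h ▸ Finset.mem_union_left B p2)
  apply wins_of_triangle (a := e.1) (b := e.2) (c := r)
  · rw [hsub]; exact hG
  · exact Finset.mem_insert_of_mem p1
  · exact Finset.mem_insert_of_mem p2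
  · exact Finset.mem_insert_self _ _
  · exact p3
  · exact hre1
  · exact hre2
  · intro x hx hmem
    rw [hsub, Finset.mem_union, Finset.mem_insert] at hx
    rcases hx with hx | rfl | hx
    · exact absurd hmem (hb x hx)
    · exact Or.inr (Or.inr rfl)
    · rcases h1 e he x hx hmem with h | h
      · exact Or.inl h
      · exact Or.inr (Or.inl h)

/-! ### the pairs -/

/-- `f` is one of Maker's points, and its line through `r₀` contains no further point -/
def Free (r₀ : Pt) (M S : Finset Pt) (f : Pt) : Prop := f ∈ M ∧ ∀ x ∈ S, det r₀ f x = 0 → x = f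

lemma phase2 {s : ℕ} {r₀ : Pt} : ∀ (j : ℕ) (M B : Finset Pt) (A : Finset (Pt × Pt)) (F : Finset Pt),
    A.card + j = s + 1 → GenPos (M ∪ B) → r₀ ∉ M ∪ B → (∀ e ∈ A, Pair r₀ M (M ∪ B) e) →
    (∀ e ∈ A, ∀ e' ∈ A, e ≠ e' → det r₀ e.1 e'.1 ≠ 0) → (∀ f ∈ F, Free r₀ M (M ∪ B) f) →
    j * (s + 1) ≤ F.card + s → MakerWinsIn s 4 (j + 2) M B := by
  classical
  intro j
  induction j with
  | zero =>
    intro M B A F h1 h2 _ h4 h5 _ _
    exact phase3 h2 A (by omega) h4 h5
  | succ j ih =>
    intro M B A F hcard hG hr0 hA hdist hF hFc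
    have hFne : F.Nonempty := by
      rw [← Finset.card_pos]
      rw [Nat.succ_mul] at hFc
      omega
    obtain ⟨f, hf⟩ := hFne
    obtain ⟨hfM, hfS⟩ := hF f hf
    have hfS' : f ∈ M ∪ B := Finset.mem_union_left B hfM
    have hfr : f ≠ r₀ := by rintro rfl; exact hr0 hfS'
    -- the new point
    have hbad : ((((M ∪ B) ×ˢ (M ∪ B)).filter fun e => e.1 ≠ e.2) : Set (Pt × Pt)).Finite :=
      Finset.finite_toSet _
    have hgood : ∃ t : ℝ, t ∈ Ioo (0:ℝ) 1 ∧ ∀ x ∈ M ∪ B, ∀ y ∈ M ∪ B, x ≠ y → det x y (r₀ + t • (f - r₀)) ≠ 0 := by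
      set Z : Set ℝ := ⋃ e ∈ ((((M ∪ B) ×ˢ (M ∪ B)).filter fun e => e.1 ≠ e.2) : Set (Pt × Pt)),
        {t : ℝ | det e.1 e.2 (r₀ + t • (f - r₀)) = 0} with hZ
      have hZf : Z.Finite := by
        apply hbad.biUnion
        intro e he
        rw [Finset.mem_coe, Finset.mem_filter, Finset.mem_product] at he
        obtain ⟨⟨he1, he2⟩, hne⟩ := he
        apply Set.Subsingleton.finite
        intro t ht t' ht'
        simp only [mem_ofPred_eq] at ht ht'
        have hlin : ∀ t : ℝ, det e.1 e.2 (r₀ + t • (f - r₀)) = det e.1 e.2 r₀ + t * (det e.1 e.2 f - det e.1 e.2 r₀) := by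
          intro t; unfold det
          simp only [Prod.fst_add, Prod.snd_add, Prod.smul_fst, Prod.smul_snd, Prod.fst_sub, Prod.snd_sub, smul_eq_mul]
          ring
        rw [hlin] at ht ht'
        by_contra htt
        have h1 : (t - t') * (det e.1 e.2 f - det e.1 e.2 r₀) = 0 := by linarith
        rcases mul_eq_zero.1 h1 with h | h
        · exact htt (by linarith)
        · have h2 : det e.1 e.2 r₀ = 0 := by rw [h] at ht; linarith
          have h3 : det e.1 e.2 f = 0 := by linarith
          -- both points are on the line of `f`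
          apply hne
          have k1 : e.1 = f := by
            by_contra hef
            have h4 : det r₀ f e.1 ≠ 0 := fun h => hef (hfS _ he1 h)
            by_cases hef2 : e.2 = f
            · rw [hef2] at h2
              apply h4
              have a1 := det_cyc r₀ f e.1
              have a2 := det_cyc f e.1 r₀
              have a3 := det_swap' e.1 r₀ f
              linarith
            · exact hG.det_ne he1 he2 hfS' hne hef hef2 h3
          rw [k1] at h2
          have h5 : det r₀ f e.2 = 0 := by
            have := det_cyc f e.2 r₀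
            have h6 := det_cyc e.2 r₀ f
            linarith
          rw [k1, hfS _ he2 h5]
      have hinf : (Ioo (0:ℝ) 1 \ Z).Infinite := (Ioo_infinite (by norm_num)).sdiff hZf
      obtain ⟨t, ht, htZ⟩ := hinf.nonempty
      refine ⟨t, ht, ?_⟩
      intro x hx y hy hxy h
      apply htZ
      rw [hZ, mem_iUnion₂]
      exact ⟨(x, y), by
        rw [Finset.mem_coe, Finset.mem_filter, Finset.mem_product]; exact ⟨⟨hx, hy⟩, hxy⟩, h⟩
    obtain ⟨t, ⟨ht0, ht1⟩, htg⟩ := hgood
    set m : Pt := r₀ + t • (f - r₀) with hm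
    have hmline : ∀ y, det r₀ m y = t * det r₀ f y := fun y => det_line hm
    have hmf : m ≠ f := by
      intro h
      have h1 : (1 - t) • (f - r₀) = 0 := by
        have : (1 - t) • (f - r₀) = f - (r₀ + t • (f - r₀)) := by module
        rw [this, ← hm, h, sub_self]
      rcases smul_eq_zero.1 h1 with h2 | h2
      · linarith
      · exact hfr (sub_eq_zero.1 h2)
    have hmr : m ≠ r₀ := by
      intro h
      have h1 : t • (f - r₀) = 0 := by
        have : t • (f - r₀) = (r₀ + t • (f - r₀)) - r₀ := by module
        rw [this, ← hm, h, sub_self]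
      rcases smul_eq_zero.1 h1 with h2 | h2
      · linarith
      · exact hfr (sub_eq_zero.1 h2)
    have hmS : m ∉ M ∪ B := by
      intro h
      apply hmf
      apply hfS m h
      have := hmline f
      rw [det_self₂, mul_zero] at this
      rw [det_swap', this, neg_zero]
    refine ⟨m, hmS, genPos_insert hG htg, Or.inr ?_⟩
    intro T hT hdisj hGT
    have hsub : insert m M ∪ (T ∪ B) = T ∪ insert m (M ∪ B) := by
      ext x; simp only [Finset.mem_union, Finset.mem_insert]; tauto
    have hmS' : m ∈ T ∪ insert m (M ∪ B) := by simp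
    have hold : ∀ x ∈ M ∪ B, x ∈ T ∪ insert m (M ∪ B) := fun x hx =>
      Finset.mem_union_right _ (Finset.mem_insert_of_mem hx)
    have hTn : ∀ x ∈ T, x ∉ insert m (M ∪ B) := fun x hx => Finset.disjoint_left.1 hdisj hx
    have hfm : det r₀ f m = 0 := by
      have := hmline f
      rw [det_self₂, mul_zero] at this
      rw [det_swap', this, neg_zero]
    have hmfline : ∀ x, det f m x = (t - 1) * det r₀ f x := fun x => det_pair hm
    -- `r₀` has not been occupied
    have hr0' : r₀ ∉ T ∪ insert m (M ∪ B) := by
      rw [Finset.mem_union, Finset.mem_insert]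
      rintro (h | h | h)
      · refine hGT.det_ne (hold f hfS') hmS' (Finset.mem_union_left _ h) (Ne.symm hmf) hfr hmr ?_
        rw [hmfline, det_self₁, mul_zero]
      · exact hmr h.symm
      · exact hr0 h
    -- the other points on the line of `f`
    have hfpair : Pair r₀ (insert m M) (T ∪ insert m (M ∪ B)) (f, m) := by
      refine ⟨Finset.mem_insert_of_mem hfM, Finset.mem_insert_self _ _, Ne.symm hmf, ⟨t, ht0, ht1, hm⟩, ?_⟩
      intro x hx hdet
      by_contra hcon
      push Not at hcon
      refine hGT.det_ne (hold f hfS') hmS' hx (Ne.symm hmf) (Ne.symm hcon.1) (Ne.symm hcon.2) ?_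
      rw [hmfline]
      simp only at hdet
      rw [hdet, mul_zero]
    have hApair : ∀ e ∈ A, Pair r₀ (insert m M) (T ∪ insert m (M ∪ B)) e := by
      intro e he
      obtain ⟨p1, p2, p3, ⟨t', ht0', ht1', ht'⟩, p5⟩ := hA e he
      refine ⟨Finset.mem_insert_of_mem p1, Finset.mem_insert_of_mem p2, p3, ⟨t', ht0', ht1', ht'⟩, ?_⟩
      intro x hx hdet
      by_contra hcon
      push Not at hcon
      refine hGT.det_ne (hold _ (Finset.mem_union_left B p1)) (hold _ (Finset.mem_union_left B p2)) hx p3
        (Ne.symm hcon.1) (Ne.symm hcon.2) ?_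
      rw [det_pair ht', hdet, mul_zero]
    -- the spoiled lines
    set F' : Finset Pt := (F.erase f).filter (fun g => ∀ b ∈ T, det r₀ g b ≠ 0) with hF'
    have hF'free : ∀ g ∈ F', Free r₀ (insert m M) (T ∪ insert m (M ∪ B)) g := by
      intro g hg
      rw [hF', Finset.mem_filter, Finset.mem_erase] at hg
      obtain ⟨⟨hgf, hgF⟩, hgT⟩ := hg
      obtain ⟨hgM, hgS⟩ := hF g hgF
      refine ⟨Finset.mem_insert_of_mem hgM, ?_⟩
      intro x hx hdet
      rw [Finset.mem_union, Finset.mem_insert] at hx
      rcases hx with hx | rfl | hx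
      · exact absurd hdet (hgT x hx)
      · exfalso
        -- then `f` is on the line of `g`
        have h1 : det r₀ m g = 0 := by rw [det_swap', hdet, neg_zero]
        rw [hmline] at h1
        rcases mul_eq_zero.1 h1 with h | h
        · linarith
        · apply hgf
          exact hfS g (Finset.mem_union_left B hgM) h
      · exact hgS x hx hdet
    have hF'card : j * (s + 1) ≤ F'.card + s := by
      -- the spoiled points inject into `T`
      have hsp : ((F.erase f) \ F').card ≤ T.card := by
        have hch : ∀ g : Pt, ∃ b : Pt, g ∈ (F.erase f) \ F' → b ∈ T ∧ det r₀ g b = 0 := by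
          intro g
          by_cases hg : g ∈ (F.erase f) \ F'
          · rw [Finset.mem_sdiff, hF', Finset.mem_filter] at hg
            have h1 : ¬ ∀ b ∈ T, det r₀ g b ≠ 0 := fun h => hg.2 ⟨hg.1, h⟩
            push Not at h1
            obtain ⟨b, hb1, hb2⟩ := h1
            exact ⟨b, fun _ => ⟨hb1, hb2⟩⟩
          · exact ⟨g, fun h => absurd h hg⟩
        choose φ hφ using hch
        apply Finset.card_le_card_of_injOn φ
        · intro g hg; exact (hφ g hg).1
        · intro g hg g' hg' hgg
          have h1 := (hφ g hg).2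
          have h2 := (hφ g' hg').2
          rw [← hgg] at h2
          have hgF : g ∈ F := Finset.mem_of_mem_erase (Finset.mem_sdiff.1 hg).1
          have hgF' : g' ∈ F := Finset.mem_of_mem_erase (Finset.mem_sdiff.1 hg').1
          have hbr : φ g ≠ r₀ := by
            intro h
            exact hr0' (Finset.mem_union_left _ (h ▸ (hφ g hg).1))
          -- `g`, `g'` are on the line through `r₀` and `φ g`
          have h3 : det r₀ g g' = 0 := by
            have hne : (φ g).1 - r₀.1 ≠ 0 ∨ (φ g).2 - r₀.2 ≠ 0 := by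
              by_contra hcon
              push Not at hcon
              exact hbr (Prod.ext (by linarith [hcon.1]) (by linarith [hcon.2]))
            unfold det at h1 h2 ⊢
            rcases hne with h | h
            · have : ((φ g).1 - r₀.1) * ((g.1 - r₀.1) * (g'.2 - r₀.2) - (g.2 - r₀.2) * (g'.1 - r₀.1)) = 0 := by
                linear_combination (-(g.1 - r₀.1)) * h2 + (g'.1 - r₀.1) * h1
              rcases mul_eq_zero.1 this with h' | h'
              · exact absurd h' h
              · exact h'
            · have : ((φ g).2 - r₀.2) * ((g.1 - r₀.1) * (g'.2 - r₀.2) - (g.2 - r₀.2) * (g'.1 - r₀.1)) = 0 := by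
                linear_combination (-(g.2 - r₀.2)) * h2 + (g'.2 - r₀.2) * h1
              rcases mul_eq_zero.1 this with h' | h'
              · exact absurd h' h
              · exact h'
          exact ((hF g hgF).2 g' (Finset.mem_union_left B (hF g' hgF').1) h3).symm
      have h1 : (F.erase f).card = F.card - 1 := Finset.card_erase_of_mem hf
      have h2 : F'.card + ((F.erase f) \ F').card = (F.erase f).card := by
        rw [add_comm]; exact Finset.card_sdiff_add_card_eq_card (Finset.filter_subset _ _)
      have h3 : 0 < F.card := Finset.card_pos.2 ⟨f, hf⟩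
      rw [Nat.succ_mul] at hFc
      omega
    have hfA : (f, m) ∉ A := by
      intro h
      exact hmS (Finset.mem_union_left B (hA _ h).2.1)
    have key : ∀ e ∈ A, det r₀ e.1 f ≠ 0 := by
      intro e he h
      obtain ⟨p1, p2, p3, ⟨t', ht0', ht1', ht'⟩, p5⟩ := hA e he
      have h1 : det r₀ f e.1 = 0 := by rw [det_swap', h, neg_zero]
      have h2 := hfS e.1 (Finset.mem_union_left B p1) h1
      have h3 : det r₀ f e.2 = 0 := by
        rw [← h2, det_swap', det_line ht', det_self₂, mul_zero, neg_zero]
      have h4 := hfS e.2 (Finset.mem_union_left B p2) h3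
      exact p3 (h2.trans h4.symm)
    refine ih (insert m M) (T ∪ B) (insert (f, m) A) F' ?_ ?_ ?_ ?_ ?_ ?_ hF'card
    · rw [Finset.card_insert_of_notMem hfA]; omega
    · rw [hsub]; exact hGT
    · rw [hsub]; exact hr0'
    · rw [hsub]
      intro e he
      rw [Finset.mem_insert] at he
      rcases he with rfl | he
      · exact hfpair
      · exact hApair e he
    · intro e he e' he' hne
      rw [Finset.mem_insert] at he he'
      rcases he with rfl | he
      · rcases he' with rfl | he'
        · exact absurd rfl hne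
        · intro h
          simp only at h
          exact key e' he' (by rw [det_swap', h, neg_zero])
      · rcases he' with rfl | he'
        · exact key e he
        · exact hdist e he e' he' hne
    · rw [hsub]; exact hF'free

/-- the first points -/
lemma phase1 {s : ℕ} (n N : ℕ) (h : ∀ M B : Finset Pt, M.card = N → GenPos (M ∪ B) → MakerWinsIn s 4 n M B) :
    ∀ (j : ℕ) (M B : Finset Pt), M.card + j = N → GenPos (M ∪ B) → MakerWinsIn s 4 (n + j) M B := by
  classical
  intro j
  induction j with
  | zero => intro M B h1 h2; exact h M B (by omega) h2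
  | succ j ih =>
    intro M B h1 h2
    obtain ⟨p, _, hp, hpg⟩ := exists_generic (M ∪ B) univ isOpen_univ univ_nonempty
    refine ⟨p, hp, genPos_insert h2 hpg, Or.inr ?_⟩
    intro T hT hdisj hG
    have hsub : insert p M ∪ (T ∪ B) = T ∪ insert p (M ∪ B) := by
      ext x; simp only [Finset.mem_union, Finset.mem_insert]; tauto
    apply ih
    · rw [Finset.card_insert_of_notMem (fun h => hp (Finset.mem_union_left B h))]; omega
    · rw [hsub]; exact hG

lemma maker_wins (s : ℕ) : MakerWinsIn s 4 (s ^ 2 + 2 * s + 4) ∅ ∅ := by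
  classical
  have main : ∀ M B : Finset Pt, M.card = s * (s + 1) + 1 → GenPos (M ∪ B) → MakerWinsIn s 4 (s + 1 + 2) M B := by
    intro M B hM hG
    obtain ⟨r₀, _, hr0, hg⟩ := exists_generic (M ∪ B) univ isOpen_univ univ_nonempty
    refine phase2 (r₀ := r₀) (s + 1) M B ∅ M (by simp) hG hr0 (by simp) (by simp) ?_ ?_
    · intro f hf
      refine ⟨hf, ?_⟩
      intro x hx hdet
      by_contra hne
      refine hg f (Finset.mem_union_left B hf) x hx (Ne.symm hne) ?_
      rw [← det_cyc]; exact hdet
    · rw [hM]; ring_nf; omega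
  have h := phase1 (s + 1 + 2) (s * (s + 1) + 1) main (s * (s + 1) + 1) ∅ ∅ (by simp) (by
    intro x hx; simp at hx)
  have e : s + 1 + 2 + (s * (s + 1) + 1) = s ^ 2 + 2 * s + 4 := by ring
  rw [e] at h
  exact h

/-- **Theorem.** In the multi-round bichromatic `4`-hole game with bias `1 : s` Maker can force a `4`-hole
with her first `s ^ 2 + 2 s + 4` moves, and Breaker has no winning strategy, for every `s`. In particular
the number `4` is not in the set `K` of the problem (`s = 2`). -/
theorem result :
    (∀ s : ℕ, MakerWinsIn s 4 (s ^ 2 + 2 * s + 4) ∅ ∅ ∧ ¬ BreakerWins s 4) ∧ 4 ∉ K :=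
  ⟨fun s => ⟨maker_wins s, not_breakerWins (maker_wins s)⟩, fun h => not_breakerWins (maker_wins 2) h.2⟩

end Pool.Agent.Results.MP_f5afab_co.FourHolesEverySpeed
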